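import Pool.Agent.H5.QH.FAL

/-! # Quaternary forms, common values -/

set_option autoImplicit false

open NumberField IsDedekindDomain Matrix Pool.Agent.H32.QC Pool.Agent.H34.N6

namespace Pool.Agent.H5.QH

lemma two_ne_ic {K F : Type} [Field K] [NumberField K] [Field F] (ι : K →+* F) :
    (2 : F) ≠ 0 := by
  have := (map_ne_zero ι).2 (two_ne_zero : (2 : K) ≠ 0)
  rwa [map_ofNat] at this

/-- adding a zero entry to a ternary vector -/
lemma iso3_iso4 {F : Type} [Field F] {a b c d : F} (h : Iso ![a, b, c]) : Iso ![a, b, c, d] := by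
  obtain ⟨x, hx, h⟩ := h
  rw [Fin.sum_univ_three] at h
  have h : a * x 0 ^ 2 + b * x 1 ^ 2 + c * x 2 ^ 2 = 0 := h
  refine ⟨![x 0, x 1, x 2, 0], ?_, ?_⟩
  · intro h0
    apply hx
    funext i
    fin_cases i
    · exact congrFun h0 0
    · exact congrFun h0 1
    · exact congrFun h0 2
  · rw [Fin.sum_univ_four]
    show a * x 0 ^ 2 + b * x 1 ^ 2 + c * x 2 ^ 2 + d * 0 ^ 2 = 0
    linear_combination h

/-- reduction to the ternary form at an embedding -/
lemma red4 (hS : T_F4S) {K F : Type} [Field K] [NumberField K] [Field F] (ι : K →+* F)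
    (a : Fin 4 → K) (ha : ∀ i, a i ≠ 0) (hsq : IsSquare (a 0 * a 1 * a 2 * a 3))
    (h : Iso fun i => ι (a i)) : Iso fun i => ι ((![a 0, a 1, a 2] : Fin 3 → K) i) := by
  rw [map4 ι a] at h
  have h2 : IsSquare (ι (a 0) * ι (a 1) * ι (a 2) * ι (a 3)) := by
    obtain ⟨r, hr⟩ := hsq
    exact ⟨ι r, by rw [← map_mul, ← map_mul, ← map_mul, ← map_mul, hr]⟩
  have := hS F (two_ne_ic ι) _ _ _ _ ((map_ne_zero ι).2 (ha 0)) ((map_ne_zero ι).2 (ha 1))
    ((map_ne_zero ι).2 (ha 2)) ((map_ne_zero ι).2 (ha 3)) h2 h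
  rw [map3 ι]
  exact this

lemma hm4_sq (h3 : T_HM3) (hS : T_F4S) (K : Type) [Field K] [NumberField K] (a : Fin 4 → K)
    (ha : ∀ i, a i ≠ 0) (hsq : IsSquare (a 0 * a 1 * a 2 * a 3)) (hloc : LocIso a) :
    Iso ![a 0, a 1, a 2] := by
  refine h3 K ![a 0, a 1, a 2] ?_ ⟨fun v => ?_, fun φ => ?_⟩
  · intro i
    fin_cases i
    · exact ha 0
    · exact ha 1
    · exact ha 2
  · exact red4 hS (ic v) a ha hsq (hloc.1 v)
  · exact red4 hS φ a ha hsq (hloc.2 φ)

theorem pf_HM4 (h3 : T_HM3) (hS : T_F4S) (hN : T_F4N) (hE : Pool.Agent.H23.QCF.T_EXT)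
    (hG : Pool.Agent.H23.QCF.T_SIG) (hL : T_LIE) : T_HM4 := by
  intro K _ _ a ha hloc
  rw [eta4 a]
  by_cases hsq : IsSquare (a 0 * a 1 * a 2 * a 3)
  · exact iso3_iso4 (hm4_sq h3 hS K a ha hsq hloc)
  · obtain ⟨E, _, _, _, s, hQ⟩ := hE K _ hsq
    obtain ⟨σ, _, _, _, _, hbas, _, _⟩ := hG K E _ s hQ
    have hloc2 : LocIso fun i => algebraMap K E (a i) := hL K E 4 a hloc
    have hsq2 : IsSquare (algebraMap K E (a 0) * algebraMap K E (a 1) * algebraMap K E (a 2) *
        algebraMap K E (a 3)) := by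
      refine ⟨s, ?_⟩
      rw [← map_mul, ← map_mul, ← map_mul, ← hQ.sq]
      ring
    have h4 : Iso ![algebraMap K E (a 0), algebraMap K E (a 1), algebraMap K E (a 2)] :=
      hm4_sq h3 hS E (fun i => algebraMap K E (a i)) (fun i => (map_ne_zero _).2 (ha i)) hsq2 hloc2
    exact hN K E _ s hsq hQ.sq hbas _ _ _ _ (ha 0) (ha 1) (ha 2) (ha 3) ⟨_, rfl⟩ h4

theorem pf_CMV (hU : T_UVI) : T_CMV := by
  classical
  intro F _ h2 n a b g hn ha hb hg
  rintro ⟨w, hw, h⟩
  rw [Fin.sum_univ_succ, Fin.sum_univ_succ] at h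
  simp only [Matrix.cons_val_zero, Matrix.cons_val_succ] at h
  by_cases hc : a * w 0 ^ 2 + b * w (Fin.succ 0) ^ 2 = 0
  · have hz : ∑ i : Fin n, g i * w i.succ.succ ^ 2 = 0 := by
      linear_combination h - hc
    by_cases hw2 : (fun i : Fin n => w i.succ.succ) = 0
    · have hab : Iso ![a, b] := by
        refine ⟨![w 0, w (Fin.succ 0)], ?_, ?_⟩
        · intro h0
          apply hw
          funext i
          refine Fin.cases (congrFun h0 0) (fun i => ?_) i
          exact Fin.cases (congrFun h0 1) (fun j => congrFun hw2 j) i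
        · rw [Fin.sum_univ_two]
          exact hc
      have hab2 : ∀ i, (![a, b] : Fin 2 → F) i ≠ 0 := by
        intro i
        fin_cases i
        · exact ha
        · exact hb
      obtain ⟨z, hz⟩ := hU F h2 2 ![a, b] hab2 hab (-(g ⟨0, hn⟩))
      rw [Fin.sum_univ_two] at hz
      have hz : a * z 0 ^ 2 + b * z 1 ^ 2 = -(g ⟨0, hn⟩) := hz
      refine ⟨z 0, z 1, Pi.single ⟨0, hn⟩ 1, ?_, ?_⟩
      · rw [hz]
        exact neg_ne_zero.2 (hg _)
      · rw [hz]
        have e : ∑ i : Fin n, g i * (Pi.single (⟨0, hn⟩ : Fin n) (1 : F) : Fin n → F) i ^ 2 =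
            g ⟨0, hn⟩ := by
          rw [Finset.sum_eq_single (⟨0, hn⟩ : Fin n)]
          · rw [Pi.single_eq_same]
            ring
          · intro i _ hi
            rw [Pi.single_eq_of_ne hi]
            ring
          · intro h3
            exact absurd (Finset.mem_univ _) h3
        rw [e]
        ring
    · obtain ⟨z, hz1⟩ := hU F h2 n g hg ⟨_, hw2, hz⟩ (-a)
      refine ⟨1, 0, z, ?_, ?_⟩
      · simpa using ha
      · rw [hz1]
        ring
  · exact ⟨w 0, w (Fin.succ 0), fun i => w i.succ.succ, hc, by linear_combination h⟩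

theorem pf_CLS (hM : T_CMV) : T_CLS := by
  intro F _ h2 hop n a b g hn ha hb hg hiso
  obtain ⟨x0, y0, z0, hc0, hz0⟩ := hM F h2 n a b g hn ha hb hg hiso
  obtain ⟨e1, he1, H⟩ := hop _ hc0
  have hcont : Continuous fun p : F × F => a * p.1 ^ 2 + b * p.2 ^ 2 := by fun_prop
  obtain ⟨e, he, H2⟩ := Metric.continuous_iff.1 hcont (x0, y0) e1 he1
  refine ⟨x0, y0, e, he, fun x y hx hy => ?_⟩
  have h3 := H2 (x, y) (by
    rw [Prod.dist_eq]
    exact max_lt (by rw [dist_eq_norm]; exact hx) (by rw [dist_eq_norm]; exact hy))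
  rw [dist_eq_norm] at h3
  obtain ⟨h4, r, h5⟩ := H _ h3
  refine ⟨h4, vecCons 1 fun i => r * z0 i, ?_, ?_⟩
  · intro h0
    have : (1 : F) = 0 := congrFun h0 0
    exact one_ne_zero this
  · rw [Fin.sum_univ_succ]
    simp only [Matrix.cons_val_zero, Matrix.cons_val_succ]
    have h6 : ∑ i, g i * (r * z0 i) ^ 2 = r ^ 2 * ∑ i, g i * z0 i ^ 2 := by
      rw [Finset.mul_sum]
      exact Finset.sum_congr rfl fun i _ => by ring
    have h7 : ∑ i, g i * z0 i ^ 2 = -(a * x0 ^ 2 + b * y0 ^ 2) := by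
      linear_combination hz0
    have h8 : a * x ^ 2 + b * y ^ 2 = r * r * (a * x0 ^ 2 + b * y0 ^ 2) := by
      rw [← h5]
      exact (div_mul_cancel₀ _ hc0).symm
    rw [h6, h7, h8]
    ring

end Pool.Agent.H5.QH
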