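import Pool.Agent.H5.QH.Targets

/-! # Cancelling a hyperbolic plane; the theorem of Hasse and Minkowski -/

set_option autoImplicit false

open NumberField IsDedekindDomain Matrix Pool.Agent.H32.QC Pool.Agent.H34.N6

namespace Pool.Agent.H5.QH

theorem pf_HMN (h3 : T_HM3) (h4 : T_HM4) (hS : T_STP) : T_HMN := by
  intro K _ _ n a hn ha hloc
  have key : ∀ (m : ℕ) (a : Fin (m + 4) → K), (∀ i, a i ≠ 0) → LocIso a → Iso a := by
    intro m
    induction m with
    | zero => exact fun a ha hl => h4 K a ha hl
    | succ m ih => exact fun a ha hl => hS K m ih a ha hl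
  rcases Nat.lt_or_ge n 4 with h | h
  · obtain rfl : n = 3 := by omega
    exact h3 K a ha hloc
  · obtain ⟨m, rfl⟩ : ∃ m, n = m + 4 := ⟨n - 4, by omega⟩
    exact key m a ha hloc

lemma dot_diag {F : Type*} [Field F] {n : ℕ} (a x y : Fin n → F) :
    x ⬝ᵥ (diagonal a *ᵥ y) = ∑ i, a i * x i * y i := by
  simp only [dotProduct, mulVec_diagonal]
  exact Finset.sum_congr rfl fun i _ => by ring

theorem pf_CAN : T_CAN := by
  classical
  intro F _ n r b
  rintro ⟨v, hv, hB⟩
  -- the bilinear form
  let β : (Fin (n + 2) → F) → (Fin (n + 2) → F) → F := fun x y =>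
    x ⬝ᵥ (diagonal (vecCons 1 (vecCons (-1) b)) *ᵥ y)
  have hβ : ∀ x y, β x y = x 0 * y 0 - x 1 * y 1 +
      ∑ i : Fin n, b i * x i.succ.succ * y i.succ.succ := by
    intro x y
    show x ⬝ᵥ (diagonal (vecCons 1 (vecCons (-1) b)) *ᵥ y) = _
    rw [dot_diag, Fin.sum_univ_succ, Fin.sum_univ_succ]
    simp only [Matrix.cons_val_zero, Matrix.cons_val_succ, Fin.succ_zero_eq_one]
    have h1 : (vecCons 1 (vecCons (-1) b) : Fin (n + 2) → F) 1 = -1 := rfl
    rw [h1]
    ring
  have hbl : ∀ x ∈ Submodule.span F (Set.range v), ∀ y ∈ Submodule.span F (Set.range v),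
      β x y = 0 := by
    intro x hx y hy
    induction hx using Submodule.span_induction with
    | mem x hx =>
      obtain ⟨i, rfl⟩ := hx
      induction hy using Submodule.span_induction with
      | mem y hy =>
        obtain ⟨j, rfl⟩ := hy
        exact hB i j
      | zero => simp [β]
      | add y z _ _ h1 h2 =>
        show (v i) ⬝ᵥ (_ *ᵥ (y + z)) = 0
        rw [mulVec_add, dotProduct_add]
        exact (congrArg₂ (· + ·) h1 h2).trans (add_zero 0)
      | smul c y _ h1 =>
        show (v i) ⬝ᵥ (_ *ᵥ (c • y)) = 0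
        rw [mulVec_smul, dotProduct_smul]
        exact (congrArg (c • ·) h1).trans (smul_zero c)
    | zero => simp [β]
    | add x z _ _ h1 h2 =>
      show (x + z) ⬝ᵥ (_ *ᵥ y) = 0
      rw [add_dotProduct]
      exact (congrArg₂ (· + ·) h1 h2).trans (add_zero 0)
    | smul c x _ h1 =>
      show (c • x) ⬝ᵥ (_ *ᵥ y) = 0
      rw [smul_dotProduct]
      exact (congrArg (c • ·) h1).trans (smul_zero c)
  set W := Submodule.span F (Set.range v) with hW
  have hWr : Module.finrank F W = r + 1 := by
    rw [hW, finrank_span_eq_card hv, Fintype.card_fin]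
  let l : (Fin (n + 2) → F) →ₗ[F] F :=
    LinearMap.proj (R := F) (φ := fun _ : Fin (n + 2) => F) 0 -
      LinearMap.proj (R := F) (φ := fun _ : Fin (n + 2) => F) 1
  have hl : ∀ x, l x = x 0 - x 1 := fun x => rfl
  let pr : (Fin (n + 2) → F) →ₗ[F] (Fin n → F) :=
    LinearMap.funLeft F F fun i : Fin n => i.succ.succ
  have hpr : ∀ x i, pr x i = x i.succ.succ := fun x i => rfl
  let e : Fin (n + 2) → F := vecCons 1 (vecCons 1 0)
  -- vectors of `ker l` in the kernel of `pr`
  have hker : ∀ x, l x = 0 → pr x = 0 → x = x 0 • e := by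
    intro x h1 h2
    rw [hl] at h1
    funext i
    refine Fin.cases ?_ (fun i => ?_) i
    · show x 0 = x 0 * 1
      ring
    · refine Fin.cases ?_ (fun j => ?_) i
      · show x 1 = x 0 * 1
        linear_combination -h1
      · show x j.succ.succ = x 0 * 0
        rw [← hpr x j, h2]
        simp
  obtain ⟨W', hW'l, hW'W, hW'r⟩ : ∃ W' : Submodule F (Fin (n + 2) → F), (∀ x ∈ W', l x = 0) ∧
      (∀ x ∈ W', x ∈ W) ∧ r ≤ Module.finrank F (W'.map pr) := by
    by_cases he : e ∈ W
    · have h1 : ∀ x ∈ W, l x = 0 := by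
        intro x hx
        have h2 := hbl x hx e he
        rw [hβ] at h2
        have h3 : ∑ i : Fin n, b i * x i.succ.succ * e i.succ.succ = 0 :=
          Finset.sum_eq_zero fun i _ => by
            show b i * x i.succ.succ * 0 = 0
            ring
        rw [h3] at h2
        have h4 : e 0 = 1 := rfl
        have h5 : e 1 = 1 := rfl
        rw [h4, h5] at h2
        rw [hl]
        linear_combination h2
      refine ⟨W, h1, fun x hx => hx, ?_⟩
      have h2 := LinearMap.finrank_range_add_finrank_ker (pr.domRestrict W)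
      rw [hWr, LinearMap.range_domRestrict] at h2
      have h3 : Module.finrank F (LinearMap.ker (pr.domRestrict W)) ≤ 1 := by
        refine finrank_le_one (⟨⟨e, he⟩, ?_⟩ : LinearMap.ker (pr.domRestrict W)) ?_
        · rw [LinearMap.mem_ker]
          funext i
          rfl
        · rintro ⟨⟨x, hx⟩, hx2⟩
          refine ⟨x 0, ?_⟩
          apply Subtype.ext
          apply Subtype.ext
          show x 0 • e = x
          exact (hker x (h1 x hx) (LinearMap.mem_ker.1 hx2)).symm
      omega
    · refine ⟨W ⊓ LinearMap.ker l, fun x hx => LinearMap.mem_ker.1 hx.2, fun x hx => hx.1, ?_⟩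
      have h1 : r ≤ Module.finrank F (W ⊓ LinearMap.ker l : Submodule F (Fin (n + 2) → F)) := by
        have h2 := LinearMap.finrank_range_add_finrank_ker (l.domRestrict W)
        have h3 : Module.finrank F (LinearMap.range (l.domRestrict W)) ≤ 1 := by
          refine (Submodule.finrank_le _).trans ?_
          rw [Module.finrank_self]
        have h4 : Module.finrank F (LinearMap.ker (l.domRestrict W)) ≤
            Module.finrank F (W ⊓ LinearMap.ker l : Submodule F (Fin (n + 2) → F)) := by
          let f : LinearMap.ker (l.domRestrict W) →ₗ[F]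
              (W ⊓ LinearMap.ker l : Submodule F (Fin (n + 2) → F)) :=
            { toFun := fun x => ⟨x.1.1, x.1.2, LinearMap.mem_ker.2 (LinearMap.mem_ker.1 x.2)⟩
              map_add' := fun x y => rfl
              map_smul' := fun c x => rfl }
          refine LinearMap.finrank_le_finrank_of_injective (f := f) ?_
          intro x y hxy
          apply Subtype.ext
          apply Subtype.ext
          exact congrArg (fun z : (W ⊓ LinearMap.ker l : Submodule F (Fin (n + 2) → F)) => z.1) hxy
        rw [hWr] at h2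
        omega
      refine h1.trans ?_
      have h2 := LinearMap.finrank_range_add_finrank_ker
        (pr.domRestrict (W ⊓ LinearMap.ker l : Submodule F (Fin (n + 2) → F)))
      rw [LinearMap.range_domRestrict] at h2
      have h3 : LinearMap.ker
          (pr.domRestrict (W ⊓ LinearMap.ker l : Submodule F (Fin (n + 2) → F))) = ⊥ := by
        rw [LinearMap.ker_eq_bot']
        rintro ⟨x, hx⟩ hx2
        have h4 := hker x (LinearMap.mem_ker.1 hx.2) hx2
        have h5 : x 0 = 0 := by
          by_contra h6
          apply he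
          have h7 : e = (x 0)⁻¹ • (x 0 • e) := by
            rw [smul_smul, inv_mul_cancel₀ h6, one_smul]
          rw [h7, ← h4]
          exact W.smul_mem _ hx.1
        apply Subtype.ext
        show x = 0
        rw [h4, h5, zero_smul]
      rw [h3, finrank_bot, add_zero] at h2
      exact h2.ge
  -- choose linearly independent vectors
  let bas := Module.finBasis F (W'.map pr)
  let c : Fin r → Fin (Module.finrank F (W'.map pr)) := Fin.castLE hW'r
  refine ⟨fun i => (bas (c i) : Fin n → F), ?_, ?_⟩
  · have h1 : LinearIndependent F fun i => bas (c i) :=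
      bas.linearIndependent.comp c (Fin.castLE_injective _)
    exact h1.map' (W'.map pr).subtype (Submodule.ker_subtype _)
  · intro i j
    obtain ⟨x, hx, hx2⟩ := Submodule.mem_map.1 (bas (c i)).2
    obtain ⟨y, hy, hy2⟩ := Submodule.mem_map.1 (bas (c j)).2
    have h1 := hbl x (hW'W x hx) y (hW'W y hy)
    rw [hβ] at h1
    have h2 := hW'l x hx
    have h3 := hW'l y hy
    rw [hl] at h2 h3
    show (bas (c i) : Fin n → F) ⬝ᵥ (diagonal b *ᵥ (bas (c j) : Fin n → F)) = 0
    rw [← hx2, ← hy2, dot_diag]
    show ∑ k : Fin n, b k * x k.succ.succ * y k.succ.succ = 0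
    linear_combination h1 - x 0 * h3 - y 1 * h2

end Pool.Agent.H5.QH
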