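import Pool.Agent.H5.QH.STP
import Pool.Agent.H5.QH.FBL
import Pool.Agent.H5.QH.FCL
import Pool.Agent.H17.QH.TI1
import Pool.Agent.H35.QH.ODS
import Pool.Agent.H43.QH.INV
import Pool.Agent.H43.QH.SPG
import Pool.Agent.H46.QH.NSL
import Pool.Agent.H59.QH.CONI
import Pool.Agent.H59.QH.REP
import Pool.Agent.H69.QH.ADD
import Pool.Agent.H69.QH.ISV
import Pool.Agent.H78.QH.DGN
import Pool.Agent.H78.QH.F4N
import Pool.Agent.H78.QH.HSP
import Pool.Agent.H86.QH.TR3
import Pool.Agent.H86.QH.UVI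
import Pool.Agent.H23.QCF.All
import Pool.Agent.H12.QC.WB
import Pool.Agent.H34.N6.Main

/-!
# The theorem of Hasse and Minkowski over number fields and the split lemma

No hypotheses: everything is assembled here.
-/

set_option autoImplicit false

open NumberField IsDedekindDomain Matrix Pool.Agent.H32.QC Pool.Agent.H34.N6

namespace Pool.Agent.H5.QH.All

theorem wap : T_WAP := by
  intro K _ _ S x y e he
  obtain ⟨z, h1, h2⟩ := Pool.Agent.H12.QC.weakApprox S x (fun v => Metric.ball (x v) e)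
    (fun v _ => Metric.ball_mem_nhds _ he) y e he
  refine ⟨z, fun v hv => ?_, h2⟩
  have h3 := h1 v hv
  rwa [Metric.mem_ball, dist_eq_norm] at h3

theorem hm3 : T_HM3 := pf_HM3 Pool.Agent.H23.QCF.All.b5 pf_C3
theorem hm4 : T_HM4 := pf_HM4 hm3 pf_F4S Pool.Agent.H78.QH.pf_F4N Pool.Agent.H23.QCF.All.ext
  Pool.Agent.H23.QCF.All.sig (pf_LIE Pool.Agent.H23.QCF.All.func)
theorem uvi : T_UVI := Pool.Agent.H86.QH.pf_UVI
theorem cls : T_CLS := pf_CLS (pf_CMV uvi)
theorem stp : T_STP := pf_STP wap pf_VFI cls pf_EXZ Pool.Agent.H23.QCF.LA.opv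
  Pool.Agent.H23.QCF.LA.odd
theorem hmn : T_HMN := pf_HMN hm3 hm4 stp

/-- the theorem of Hasse and Minkowski -/
theorem hasseMinkowski (K : Type) [Field K] [NumberField K] : HasseMinkowski K := hmn K

theorem con : T_CON := Pool.Agent.H59.QH.pf_CON Pool.Agent.H23.QCF.All.pf
  Pool.Agent.H23.QCF.All.b5
theorem tr3 : T_TR3 := Pool.Agent.H86.QH.pf_TR3 pf_C3 con
theorem nsl : T_NSL := Pool.Agent.H46.QH.pf_NSL Pool.Agent.H23.QCF.LA.qui
  Pool.Agent.H23.QCF.LA.niv
theorem dgn : T_DGN := Pool.Agent.H78.QH.pf_DGN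
theorem inv : T_INV := Pool.Agent.H43.QH.pf_INV
theorem ti1 : T_TI1 := Pool.Agent.H17.QH.pf_TI1
theorem isv : T_ISV := Pool.Agent.H69.QH.pf_ISV
theorem rep : T_REP := Pool.Agent.H59.QH.pf_REP dgn
theorem hsp : T_HSP := Pool.Agent.H78.QH.pf_HSP uvi rep isv
theorem can : T_CAN := pf_CAN
theorem add : T_ADD := Pool.Agent.H69.QH.pf_ADD
theorem ods : T_ODS := Pool.Agent.H35.QH.pf_ODS hmn ti1 inv hsp can add tr3 nsl
theorem spg : T_SPG := Pool.Agent.H43.QH.pf_SPG dgn inv ods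

/-- conics with one exceptional place -/
theorem conics : Pool.Agent.H34.N6.T_CON := con

/-- the split lemma -/
theorem split7 : Pool.Agent.H34.N6.T_SPL := fun K _ _ A w₀ h1 h2 h3 => spg K 3 A w₀ h1 h2 h3

end Pool.Agent.H5.QH.All
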