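import Pool.Agent.H5.QH.Targets

/-! # Small rows: ternary and quaternary forms -/

set_option autoImplicit false

open NumberField IsDedekindDomain Matrix Pool.Agent.H32.QC Pool.Agent.H34.N6

namespace Pool.Agent.H5.QH

theorem pf_VFI : T_VFI := by
  intro K _ _ x hx
  have h1 := HeightOneSpectrum.Support.finite (𝓞 K) x
  have h2 := HeightOneSpectrum.Support.finite (𝓞 K) x⁻¹
  refine (h1.union h2).subset fun v hv => ?_
  rcases lt_or_gt_of_ne hv with h | h
  · right
    show 1 < v.valuation K x⁻¹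
    rw [map_inv₀]
    have h0 : v.valuation K x ≠ 0 := (Valuation.ne_zero_iff _).2 hx
    exact (one_lt_inv₀ (zero_lt_iff.2 h0)).2 h
  · left
    exact h

theorem pf_C3 : T_C3 := by
  intro F _ a b c hc
  constructor
  · rintro ⟨x, hx, h⟩
    rw [Fin.sum_univ_three] at h
    simp only [Matrix.cons_val_zero, Matrix.cons_val_one, Matrix.cons_val_two, Matrix.head_cons,
      Matrix.tail_cons] at h
    refine ⟨x 0, x 1, c * x 2, ?_, ?_⟩
    · by_contra h0
      push Not at h0
      apply hx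
      have h2 : x 2 = 0 := by
        rcases mul_eq_zero.1 h0.2.2 with h3 | h3
        · exact absurd h3 hc
        · exact h3
      funext i
      fin_cases i
      · exact h0.1
      · exact h0.2.1
      · exact h2
    · linear_combination c * h
  · rintro ⟨x, y, z, hx, h⟩
    refine ⟨![x, y, z / c], ?_, ?_⟩
    · intro h0
      have h1 : x = 0 := congrFun h0 0
      have h2 : y = 0 := congrFun h0 1
      have h3 : z / c = 0 := congrFun h0 2
      have h4 : z = 0 := by
        rcases div_eq_zero_iff.1 h3 with h3 | h3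
        · exact h3
        · exact absurd h3 hc
      rcases hx with hx | hx | hx
      · exact hx h1
      · exact hx h2
      · exact hx h4
    · rw [Fin.sum_univ_three]
      simp only [Matrix.cons_val_zero, Matrix.cons_val_one, Matrix.cons_val_two,
        Matrix.head_cons, Matrix.tail_cons]
      have h1 : c * (a * x ^ 2 + b * y ^ 2 + c * (z / c) ^ 2) = 0 := by
        have h2 : c * (z / c) = z := by field_simp
        have h3 : c * (a * x ^ 2 + b * y ^ 2 + c * (z / c) ^ 2) =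
          c * a * x ^ 2 + c * b * y ^ 2 + (c * (z / c)) ^ 2 := by ring
        rw [h3, h2, h]
        ring
      rcases mul_eq_zero.1 h1 with h2 | h2
      · exact absurd h2 hc
      · exact h2

theorem pf_LIE (h : Pool.Agent.H23.QCF.T_FUNC) : T_LIE := by
  intro K E _ _ _ _ _ n a ha
  refine ⟨fun w => ?_, fun φ => ?_⟩
  · obtain ⟨f, hf⟩ := h K E w
    obtain ⟨x, hx, h1⟩ := ha.1 (w.under (𝓞 K))
    refine ⟨fun i => f (x i), ?_, ?_⟩
    · intro h0
      apply hx
      funext i
      have h2 : f (x i) = 0 := congrFun h0 i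
      exact (map_eq_zero f).1 h2
    · have h2 := congrArg f h1
      rw [map_sum, map_zero] at h2
      rw [← h2]
      refine Finset.sum_congr rfl fun i _ => ?_
      rw [map_mul, map_pow, hf]
  · exact ha.2 (φ.comp (algebraMap K E))

lemma hil_one {F : Type*} [Field F] {a b : F} : hil a b = 1 ↔ Sol a b := by
  unfold hil
  split_ifs with h
  · simp [h]
  · simp [h]

lemma eta3 {F : Type*} (a : Fin 3 → F) : a = ![a 0, a 1, a 2] := by
  funext i
  fin_cases i <;> rfl

lemma map3 {F L : Type*} (f : F → L) (a : Fin 3 → F) :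
    (fun i => f (a i)) = ![f (a 0), f (a 1), f (a 2)] := by
  funext i
  fin_cases i <;> rfl

lemma eta4 {F : Type*} (a : Fin 4 → F) : a = ![a 0, a 1, a 2, a 3] := by
  funext i
  fin_cases i <;> rfl

lemma map4 {F L : Type*} (f : F → L) (a : Fin 4 → F) :
    (fun i => f (a i)) = ![f (a 0), f (a 1), f (a 2), f (a 3)] := by
  funext i
  fin_cases i <;> rfl

/-- the ternary form at an embedding -/
lemma iso3_map (hC : T_C3) {K F : Type} [Field K] [Field F] (ι : K →+* F) (a : Fin 3 → K)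
    (ha : a 2 ≠ 0) : (Iso fun i => ι (a i)) ↔ Sol (ι (-(a 0 * a 2))) (ι (-(a 1 * a 2))) := by
  rw [map3 ι a, hC F _ _ _ ((map_ne_zero ι).2 ha), map_neg, map_mul, map_neg, map_mul]

theorem pf_HM3 (hB : Pool.Agent.H23.QCF.T_B5) (hC : T_C3) : T_HM3 := by
  intro K _ _ a ha hloc
  rw [eta3 a, hC K _ _ _ (ha 2)]
  refine hB K _ _ (neg_ne_zero.2 (mul_ne_zero (ha 0) (ha 2)))
    (neg_ne_zero.2 (mul_ne_zero (ha 1) (ha 2))) ?_
  rintro (v | φ)
  · exact hil_one.2 ((iso3_map hC (ic v) a (ha 2)).1 (hloc.1 v))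
  · exact hil_one.2 ((iso3_map hC φ a (ha 2)).1 (hloc.2 φ))

theorem pf_F4S : T_F4S := by
  intro F _ h2 a b c d ha hb hc hd hsq hiso
  obtain ⟨s, hs⟩ := hsq
  obtain ⟨w, hw, h⟩ := hiso
  rw [Fin.sum_univ_four] at h
  have h : a * w 0 ^ 2 + b * w 1 ^ 2 + c * w 2 ^ 2 + d * w 3 ^ 2 = 0 := h
  have hs0 : s ≠ 0 := by
    rintro rfl
    have : a * b * c * d ≠ 0 := mul_ne_zero (mul_ne_zero (mul_ne_zero ha hb) hc) hd
    exact this (by rw [hs]; ring)
  by_cases ht : w 3 = 0
  · refine ⟨![w 0, w 1, w 2], ?_, ?_⟩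
    · intro h0
      apply hw
      funext i
      fin_cases i
      · exact congrFun h0 0
      · exact congrFun h0 1
      · exact congrFun h0 2
      · exact ht
    · rw [Fin.sum_univ_three]
      show a * w 0 ^ 2 + b * w 1 ^ 2 + c * w 2 ^ 2 = 0
      rw [ht] at h
      linear_combination h
  · obtain ⟨p0, p1, p2, hp, hB⟩ : ∃ p0 p1 p2 : F, (p0 ≠ 0 ∨ p1 ≠ 0 ∨ p2 ≠ 0) ∧
        a * w 0 * p0 + b * w 1 * p1 + c * w 2 * p2 = 0 := by
      by_cases hx : w 0 = 0 ∧ w 1 = 0
      · exact ⟨1, 0, 0, Or.inl one_ne_zero, by rw [hx.1]; ring⟩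
      · refine ⟨b * w 1, -(a * w 0), 0, ?_, by ring⟩
        by_cases h0 : w 0 = 0
        · left
          refine mul_ne_zero hb fun h1 => hx ⟨h0, h1⟩
        · right
          left
          exact neg_ne_zero.2 (mul_ne_zero ha h0)
    by_cases hg : a * p0 ^ 2 + b * p1 ^ 2 + c * p2 ^ 2 = 0
    · refine ⟨![p0, p1, p2], ?_, ?_⟩
      · intro h0
        rcases hp with hp | hp | hp
        · exact hp (congrFun h0 0)
        · exact hp (congrFun h0 1)
        · exact hp (congrFun h0 2)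
      · rw [Fin.sum_univ_three]
        exact hg
    · set q0 := b * c * (w 1 * p2 - w 2 * p1) with hq0
      set q1 := c * a * (w 2 * p0 - w 0 * p2) with hq1
      set q2 := a * b * (w 0 * p1 - w 1 * p0) with hq2
      have e1 : a * q0 ^ 2 + b * q1 ^ 2 + c * q2 ^ 2 =
          a * b * c * ((a * w 0 ^ 2 + b * w 1 ^ 2 + c * w 2 ^ 2) *
            (a * p0 ^ 2 + b * p1 ^ 2 + c * p2 ^ 2) -
            (a * w 0 * p0 + b * w 1 * p1 + c * w 2 * p2) ^ 2) := by
        rw [hq0, hq1, hq2]
        ring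
      have e2 : a * p0 * q0 + b * p1 * q1 + c * p2 * q2 = 0 := by
        rw [hq0, hq1, hq2]
        ring
      have e3 : a * w 0 ^ 2 + b * w 1 ^ 2 + c * w 2 ^ 2 = -(d * w 3 ^ 2) := by
        linear_combination h
      refine ⟨![s * w 3 * p0 + q0, s * w 3 * p1 + q1, s * w 3 * p2 + q2], ?_, ?_⟩
      · intro h0
        have f0 : s * w 3 * p0 + q0 = 0 := congrFun h0 0
        have f1 : s * w 3 * p1 + q1 = 0 := congrFun h0 1
        have f2 : s * w 3 * p2 + q2 = 0 := congrFun h0 2
        have f3 : s * w 3 * (a * p0 ^ 2 + b * p1 ^ 2 + c * p2 ^ 2) = 0 := by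
          linear_combination a * p0 * f0 + b * p1 * f1 + c * p2 * f2 - e2
        exact (mul_ne_zero (mul_ne_zero hs0 ht) hg) f3
      · rw [Fin.sum_univ_three]
        show a * (s * w 3 * p0 + q0) ^ 2 + b * (s * w 3 * p1 + q1) ^ 2 +
          c * (s * w 3 * p2 + q2) ^ 2 = 0
        rw [e3, hB] at e1
        linear_combination e1 + 2 * s * w 3 * e2 - w 3 ^ 2 *
          (a * p0 ^ 2 + b * p1 ^ 2 + c * p2 ^ 2) * hs

theorem pf_EXZ : T_EXZ := by
  intro F _ n c g
  rintro ⟨x, hx, h⟩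
  rw [Fin.sum_univ_three] at h
  have h : g 0 * x 0 ^ 2 + g 1 * x 1 ^ 2 + g 2 * x 2 ^ 2 = 0 := h
  refine ⟨vecCons 0 (vecCons (x 0) (vecCons (x 1) (vecCons (x 2) 0))), ?_, ?_⟩
  · intro h0
    apply hx
    funext i
    fin_cases i
    · exact congrFun h0 (Fin.succ 0)
    · exact congrFun h0 (Fin.succ (Fin.succ 0))
    · exact congrFun h0 (Fin.succ (Fin.succ (Fin.succ 0)))
  · rw [Fin.sum_univ_succ, Fin.sum_univ_succ, Fin.sum_univ_succ, Fin.sum_univ_succ]
    simp only [Matrix.cons_val_zero, Matrix.cons_val_succ, Pi.zero_apply]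
    have e : ∑ i : Fin n, g i.succ.succ.succ * (0 : F) ^ 2 = 0 :=
      Finset.sum_eq_zero fun i _ => by ring
    rw [e]
    have g1 : g (Fin.succ 0) = g 1 := rfl
    have g2 : g (Fin.succ (Fin.succ 0)) = g 2 := rfl
    rw [g1, g2]
    linear_combination h

end Pool.Agent.H5.QH
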