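import Pool.Agent.H5.QH.Targets

/-! # One variable less -/

set_option autoImplicit false

open NumberField IsDedekindDomain Matrix Pool.Agent.H32.QC Pool.Agent.H34.N6

namespace Pool.Agent.H5.QH

/-- squares are open in the real field -/
lemma real_open (c0 : ℝ) (h : c0 ≠ 0) :
    ∃ e : ℝ, 0 < e ∧ ∀ c : ℝ, ‖c - c0‖ < e → c ≠ 0 ∧ IsSquare (c / c0) := by
  refine ⟨|c0|, abs_pos.2 h, fun c hc => ?_⟩
  have h1 : 0 < c / c0 := by
    have h2 : |c - c0| < |c0| := hc
    have h3 : |c / c0 - 1| < 1 := by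
      rw [div_sub_one h, abs_div, div_lt_one (abs_pos.2 h)]
      exact h2
    have := (abs_lt.1 h3).1
    linarith
  refine ⟨?_, ?_⟩
  · rintro rfl
    simp at h1
  · exact ⟨Real.sqrt (c / c0), (Real.mul_self_sqrt h1.le).symm⟩

lemma exists_place (K : Type) [Field K] [NumberField K] : Nonempty (FPl K) := by
  obtain ⟨M, hM⟩ := Ideal.exists_maximal (𝓞 K)
  refine ⟨⟨M, hM.isPrime, ?_⟩⟩
  rintro rfl
  exact RingOfIntegers.not_isField K (Ring.isField_iff_maximal_bot.2 hM)

lemma cons2 {F : Type*} {n : ℕ} (a : Fin (n + 2) → F) :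
    a = vecCons (a 0) (vecCons (a 1) fun i => a i.succ.succ) := by
  funext i
  refine Fin.cases rfl (fun i => ?_) i
  exact Fin.cases rfl (fun j => rfl) i

lemma map_cons2 {F L : Type*} {n : ℕ} (f : F → L) (a : Fin (n + 2) → F) :
    (fun i => f (a i)) = vecCons (f (a 0)) (vecCons (f (a 1)) fun i => f (a i.succ.succ)) :=
  cons2 (fun i => f (a i))

lemma map_cons1 {F L : Type*} {n : ℕ} (f : F → L) (c : F) (a : Fin n → F) :
    (fun i => f (vecCons c a i)) = vecCons (f c) fun i => f (a i) := by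
  funext i
  exact Fin.cases rfl (fun j => rfl) i

theorem pf_STP (hW : T_WAP) (hV : T_VFI) (hC : T_CLS) (hE : T_EXZ) (hO : T_OPV) (hD : T_ODD) :
    T_STP := by
  classical
  intro K _ _ n hn a ha hloc
  obtain ⟨v0⟩ := exists_place K
  set A := a 0 with hA
  set B := a 1 with hB
  set g : Fin (n + 3) → K := fun i => a i.succ.succ with hg
  have hg0 : ∀ i, g i ≠ 0 := fun i => ha _
  have ea : a = vecCons A (vecCons B g) := cons2 a
  have hfin : ({v : FPl K | v.valuation K 2 ≠ 1} ∪ ({v : FPl K | v.valuation K (g 0) ≠ 1} ∪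
      ({v : FPl K | v.valuation K (g 1) ≠ 1} ∪ ({v : FPl K | v.valuation K (g 2) ≠ 1} ∪
        {v0})))).Finite :=
    (hV K 2 two_ne_zero).union ((hV K _ (hg0 0)).union ((hV K _ (hg0 1)).union
      ((hV K _ (hg0 2)).union (Set.finite_singleton v0))))
  set S : Finset (FPl K) := hfin.toFinset with hS
  have hSm : ∀ v : FPl K, v ∉ S → v.valuation K 2 = 1 ∧ v.valuation K (g 0) = 1 ∧
      v.valuation K (g 1) = 1 ∧ v.valuation K (g 2) = 1 := by
    intro v hv
    simp only [hS, Set.Finite.mem_toFinset, Set.mem_union, Set.mem_ofPred_eq,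
      Set.mem_singleton_iff, not_or, not_not] at hv
    exact ⟨hv.1, hv.2.1, hv.2.2.1, hv.2.2.2.1⟩
  have hv0 : v0 ∈ S := by
    simp [hS]
  -- finite places
  have h1 : ∀ v : FPl K, ∃ (x0 y0 : v.adicCompletion K) (e : ℝ), 0 < e ∧
      ∀ x y : v.adicCompletion K, ‖x - x0‖ < e → ‖y - y0‖ < e →
        ic v A * x ^ 2 + ic v B * y ^ 2 ≠ 0 ∧
        Iso (vecCons (ic v A * x ^ 2 + ic v B * y ^ 2) fun i => ic v (g i)) := by
    intro v
    have h2 : (2 : v.adicCompletion K) ≠ 0 := by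
      have := (map_ne_zero (ic v)).2 (two_ne_zero : (2 : K) ≠ 0)
      rwa [map_ofNat] at this
    refine hC (v.adicCompletion K) h2 (hO K v) (n + 3) (ic v A) (ic v B) (fun i => ic v (g i))
      (by omega) ((map_ne_zero _).2 (ha 0)) ((map_ne_zero _).2 (ha 1))
      (fun i => (map_ne_zero _).2 (hg0 i)) ?_
    have := hloc.1 v
    rwa [map_cons2 (ic v) a] at this
  choose x1 y1 e1 he1 H1 using h1
  have h2 : ∀ φ : K →+* ℝ, ∃ (x0 y0 : ℝ) (e : ℝ), 0 < e ∧
      ∀ x y : ℝ, ‖x - x0‖ < e → ‖y - y0‖ < e →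
        φ A * x ^ 2 + φ B * y ^ 2 ≠ 0 ∧
        Iso (vecCons (φ A * x ^ 2 + φ B * y ^ 2) fun i => φ (g i)) := by
    intro φ
    refine hC ℝ two_ne_zero real_open (n + 3) (φ A) (φ B) (fun i => φ (g i))
      (by omega) ((map_ne_zero _).2 (ha 0)) ((map_ne_zero _).2 (ha 1))
      (fun i => (map_ne_zero _).2 (hg0 i)) ?_
    have := hloc.2 φ
    rwa [map_cons2 φ a] at this
  choose x2 y2 e2 he2 H2 using h2
  have : Finite (K →+* ℝ) := by
    refine Finite.of_injective (fun φ : K →+* ℝ => (Complex.ofRealHom.comp φ : K →+* ℂ)) ?_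
    intro φ ψ h
    ext x
    have h3 : (Complex.ofRealHom.comp φ) x = (Complex.ofRealHom.comp ψ) x := by
      simpa using congrArg (fun f : K →+* ℂ => f x) h
    simpa using h3
  let _ : Fintype (K →+* ℝ) := Fintype.ofFinite _
  obtain ⟨e, he, hle1, hle2⟩ : ∃ e : ℝ, 0 < e ∧ (∀ v ∈ S, e ≤ e1 v) ∧ ∀ φ, e ≤ e2 φ := by
    have hne : S.Nonempty := ⟨v0, hv0⟩
    by_cases hr : (Finset.univ : Finset (K →+* ℝ)).Nonempty
    · refine ⟨min (S.inf' hne e1) (Finset.univ.inf' hr e2), ?_, ?_, ?_⟩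
      · refine lt_min ((Finset.lt_inf'_iff _).2 fun v _ => he1 v)
          ((Finset.lt_inf'_iff _).2 fun v _ => he2 v)
      · exact fun v hv => (min_le_left _ _).trans (Finset.inf'_le _ hv)
      · exact fun φ => (min_le_right _ _).trans (Finset.inf'_le _ (Finset.mem_univ φ))
    · refine ⟨S.inf' hne e1, (Finset.lt_inf'_iff _).2 fun v _ => he1 v,
        fun v hv => Finset.inf'_le _ hv, fun φ => ?_⟩
      exact absurd ⟨φ, Finset.mem_univ φ⟩ hr
  obtain ⟨x, hx1, hx2⟩ := hW K S x1 x2 e he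
  obtain ⟨y, hy1, hy2⟩ := hW K S y1 y2 e he
  have K1 : ∀ v ∈ S, ic v (A * x ^ 2 + B * y ^ 2) ≠ 0 ∧
      Iso fun i => ic v (vecCons (A * x ^ 2 + B * y ^ 2) g i) := by
    intro v hv
    have := H1 v (ic v x) (ic v y) ((hx1 v hv).trans_le (hle1 v hv))
      ((hy1 v hv).trans_le (hle1 v hv))
    have e3 : ic v (A * x ^ 2 + B * y ^ 2) = ic v A * (ic v x) ^ 2 + ic v B * (ic v y) ^ 2 := by
      rw [map_add, map_mul, map_mul, map_pow, map_pow]
    rw [map_cons1 (ic v), e3]
    exact this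
  have K2 : ∀ φ : K →+* ℝ, Iso fun i => φ (vecCons (A * x ^ 2 + B * y ^ 2) g i) := by
    intro φ
    have := H2 φ (φ x) (φ y) ((hx2 φ).trans_le (hle2 φ)) ((hy2 φ).trans_le (hle2 φ))
    have e3 : φ (A * x ^ 2 + B * y ^ 2) = φ A * (φ x) ^ 2 + φ B * (φ y) ^ 2 := by
      rw [map_add, map_mul, map_mul, map_pow, map_pow]
    rw [map_cons1 φ, e3]
    exact this.2
  have hc : A * x ^ 2 + B * y ^ 2 ≠ 0 := by
    intro h0
    exact (K1 v0 hv0).1 (by rw [h0, map_zero])
  have hiso : Iso (vecCons (A * x ^ 2 + B * y ^ 2) g) := by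
    refine hn _ ?_ ⟨?_, K2⟩
    · intro i
      exact Fin.cases hc hg0 i
    · intro v
      by_cases hv : v ∈ S
      · exact (K1 v hv).2
      · obtain ⟨k2, k0, k1, k3⟩ := hSm v hv
        have hgu : ∀ i, v.valuation K ((![g 0, g 1, g 2] : Fin 3 → K) i) = 1 := by
          intro i
          fin_cases i
          · exact k0
          · exact k1
          · exact k3
        have h5 := (hD K v k2 1 (by simp)).2 ![g 0, g 1, g 2] hgu
        rw [map_cons1 (ic v)]
        refine hE (v.adicCompletion K) n _ (fun i => ic v (g i)) ?_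
        have e5 : (fun i => ic v ((![g 0, g 1, g 2] : Fin 3 → K) i)) =
            ![ic v (g 0), ic v (g 1), ic v (g 2)] := by
          funext i
          fin_cases i <;> rfl
        rw [e5] at h5
        exact h5
  obtain ⟨w, hw, hsum⟩ := hiso
  refine ⟨vecCons (x * w 0) (vecCons (y * w 0) fun i => w i.succ), ?_, ?_⟩
  · intro h0
    have h3 : (fun i : Fin (n + 3) => w i.succ) = 0 := by
      funext i
      exact congrFun h0 i.succ.succ
    apply hw
    have h4 : w 0 = 0 := by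
      rw [Fin.sum_univ_succ] at hsum
      simp only [Matrix.cons_val_zero, Matrix.cons_val_succ] at hsum
      have h6 : ∑ i : Fin (n + 3), g i * w i.succ ^ 2 = 0 :=
        Finset.sum_eq_zero fun i _ => by rw [show w i.succ = 0 from congrFun h3 i]; ring
      rw [h6, add_zero] at hsum
      rcases mul_eq_zero.1 hsum with h7 | h7
      · exact absurd h7 hc
      · exact pow_eq_zero_iff (two_ne_zero) |>.1 h7
    funext i
    exact Fin.cases h4 (fun j => congrFun h3 j) i
  · rw [ea]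
    rw [Fin.sum_univ_succ] at hsum ⊢
    rw [Fin.sum_univ_succ]
    simp only [Matrix.cons_val_zero, Matrix.cons_val_succ] at hsum ⊢
    linear_combination hsum

end Pool.Agent.H5.QH
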