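import Pool.Agent.H34.N6.Defs
import Pool.Agent.H32.QC.TargetsL
import Pool.Agent.H23.QCF.Targets

/-!
# Block H: the theorem of Hasse and Minkowski and the split lemma

All forms are diagonal; `![1, -1]` is the hyperbolic plane.
-/

set_option autoImplicit false

open NumberField IsDedekindDomain Matrix Pool.Agent.H32.QC Pool.Agent.H34.N6

namespace Pool.Agent.H5.QH

/-! ### Inputs -/

/-- weak approximation (helper12, weakApprox) -/
def T_WAP : Prop := ∀ (K : Type) [Field K] [NumberField K] (S : Finset (FPl K))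
  (x : ∀ v : FPl K, v.adicCompletion K) (y : (K →+* ℝ) → ℝ) (e : ℝ), 0 < e →
  ∃ z : K, (∀ v ∈ S, ‖ic v z - x v‖ < e) ∧ ∀ τ : K →+* ℝ, |τ z - y τ| < e

/-- a nonzero element is a unit at almost all places -/
def T_VFI : Prop := ∀ (K : Type) [Field K] [NumberField K] (x : K), x ≠ 0 →
  {v : FPl K | v.valuation K x ≠ 1}.Finite

/-! ### Ternary and quaternary forms -/

/-- ternary forms and conics -/
def T_C3 : Prop := ∀ (F : Type) [Field F] (a b c : F), c ≠ 0 →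
  (Iso ![a, b, c] ↔ Sol (-(a * c)) (-(b * c)))

/-- ternary forms -/
def T_HM3 : Prop := ∀ (K : Type) [Field K] [NumberField K] (a : Fin 3 → K), (∀ i, a i ≠ 0) →
  LocIso a → Iso a

/-- quaternary forms whose discriminant is a square -/
def T_F4S : Prop := ∀ (F : Type) [Field F], (2 : F) ≠ 0 → ∀ a b c d : F, a ≠ 0 → b ≠ 0 →
  c ≠ 0 → d ≠ 0 → IsSquare (a * b * c * d) → Iso ![a, b, c, d] → Iso ![a, b, c]

/-- quaternary forms whose discriminant is not a square -/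
def T_F4N : Prop := ∀ (F E : Type) [Field F] [CharZero F] [Field E] [Algebra F E] (t : F) (s : E),
  ¬ IsSquare t → s ^ 2 = algebraMap F E t →
  (∀ x : E, ∃ c d : F, x = algebraMap F E c + algebraMap F E d * s) →
  ∀ a b c d : F, a ≠ 0 → b ≠ 0 → c ≠ 0 → d ≠ 0 → IsSquare (t * (a * b * c * d)) →
  Iso ![algebraMap F E a, algebraMap F E b, algebraMap F E c] → Iso ![a, b, c, d]

/-- extension of the ground field -/
def T_LIE : Prop := ∀ (K E : Type) [Field K] [NumberField K] [Field E] [NumberField E]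
  [Algebra K E] (n : ℕ) (a : Fin n → K), LocIso a → LocIso fun i => algebraMap K E (a i)

/-- quaternary forms -/
def T_HM4 : Prop := ∀ (K : Type) [Field K] [NumberField K] (a : Fin 4 → K), (∀ i, a i ≠ 0) →
  LocIso a → Iso a

/-! ### The induction step -/

/-- isotropic forms are universal -/
def T_UVI : Prop := ∀ (F : Type) [Field F], (2 : F) ≠ 0 → ∀ (n : ℕ) (g : Fin n → F),
  (∀ i, g i ≠ 0) → Iso g → ∀ t : F, ∃ z : Fin n → F, ∑ i, g i * z i ^ 2 = t

/-- a common value different from zero -/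
def T_CMV : Prop := ∀ (F : Type) [Field F], (2 : F) ≠ 0 → ∀ (n : ℕ) (a b : F)
  (g : Fin n → F), 0 < n → a ≠ 0 → b ≠ 0 → (∀ i, g i ≠ 0) → Iso (vecCons a (vecCons b g)) →
  ∃ (x y : F) (z : Fin n → F), a * x ^ 2 + b * y ^ 2 ≠ 0 ∧
    a * x ^ 2 + b * y ^ 2 + ∑ i, g i * z i ^ 2 = 0

/-- the same in a neighbourhood -/
def T_CLS : Prop := ∀ (F : Type) [NormedField F], (2 : F) ≠ 0 →
  (∀ c0 : F, c0 ≠ 0 → ∃ e : ℝ, 0 < e ∧ ∀ c : F, ‖c - c0‖ < e → c ≠ 0 ∧ IsSquare (c / c0)) →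
  ∀ (n : ℕ) (a b : F) (g : Fin n → F), 0 < n → a ≠ 0 → b ≠ 0 → (∀ i, g i ≠ 0) →
  Iso (vecCons a (vecCons b g)) → ∃ (x0 y0 : F) (e : ℝ), 0 < e ∧ ∀ x y : F, ‖x - x0‖ < e →
    ‖y - y0‖ < e → a * x ^ 2 + b * y ^ 2 ≠ 0 ∧ Iso (vecCons (a * x ^ 2 + b * y ^ 2) g)

/-- a form with an isotropic part is isotropic -/
def T_EXZ : Prop := ∀ (F : Type) [Field F] (n : ℕ) (c : F) (g : Fin (n + 3) → F),
  Iso ![g 0, g 1, g 2] → Iso (vecCons c g)

/-- one variable less -/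
def T_STP : Prop := ∀ (K : Type) [Field K] [NumberField K] (n : ℕ),
  (∀ a : Fin (n + 4) → K, (∀ i, a i ≠ 0) → LocIso a → Iso a) →
  ∀ a : Fin (n + 5) → K, (∀ i, a i ≠ 0) → LocIso a → Iso a

/-- the theorem of Hasse and Minkowski -/
def T_HMN : Prop := ∀ (K : Type) [Field K] [NumberField K], HasseMinkowski K

/-! ### Algebra of forms -/

/-- diagonalisation -/
def T_DGN : Prop := ∀ (F : Type) [Field F], (2 : F) ≠ 0 → ∀ (n : ℕ)
  (A : Matrix (Fin n) (Fin n) F), A.IsSymm → A.det ≠ 0 →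
  ∃ (a : Fin n → F) (Q : Matrix (Fin n) (Fin n) F), (∀ i, a i ≠ 0) ∧ IsUnit Q.det ∧
    Qᵀ * A * Q = diagonal a

/-- totally isotropic subspaces and change of basis -/
def T_INV : Prop := ∀ (F : Type) [Field F] (n r : ℕ) (A Q : Matrix (Fin n) (Fin n) F),
  IsUnit Q.det → (TI (Qᵀ * A * Q) r ↔ TI A r)

/-- one isotropic vector -/
def T_TI1 : Prop := ∀ (F : Type) [Field F] (n : ℕ) (a : Fin n → F),
  (TI (diagonal a) 1 ↔ Iso a) ∧ ∀ r : ℕ, TI (diagonal a) (r + 1) → Iso a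

/-- equivalent forms are isotropic together -/
def T_ISV : Prop := ∀ (F : Type) [Field F] (n : ℕ) (a b : Fin n → F)
  (Q : Matrix (Fin n) (Fin n) F), IsUnit Q.det → Qᵀ * diagonal a * Q = diagonal b →
  (Iso a ↔ Iso b)

/-- splitting off a value -/
def T_REP : Prop := ∀ (F : Type) [Field F], (2 : F) ≠ 0 → ∀ (n : ℕ) (a : Fin (n + 1) → F)
  (u : Fin (n + 1) → F) (t : F), (∀ i, a i ≠ 0) → t ≠ 0 → ∑ i, a i * u i ^ 2 = t →
  ∃ (b : Fin n → F) (Q : Matrix (Fin (n + 1)) (Fin (n + 1)) F), (∀ i, b i ≠ 0) ∧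
    IsUnit Q.det ∧ Qᵀ * diagonal a * Q = diagonal (vecCons t b)

/-- splitting off a hyperbolic plane -/
def T_HSP : Prop := ∀ (F : Type) [Field F], (2 : F) ≠ 0 → ∀ (n : ℕ) (a : Fin (n + 2) → F),
  (∀ i, a i ≠ 0) → Iso a →
  ∃ (b : Fin n → F) (Q : Matrix (Fin (n + 2)) (Fin (n + 2)) F), (∀ i, b i ≠ 0) ∧
    IsUnit Q.det ∧ Qᵀ * diagonal a * Q = diagonal (vecCons 1 (vecCons (-1) b))

/-- cancelling a hyperbolic plane -/
def T_CAN : Prop := ∀ (F : Type) [Field F] (n r : ℕ) (b : Fin n → F),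
  TI (diagonal (vecCons 1 (vecCons (-1) b))) (r + 1) → TI (diagonal b) r

/-- adding a hyperbolic plane -/
def T_ADD : Prop := ∀ (F : Type) [Field F] (n r : ℕ) (b : Fin n → F),
  TI (diagonal b) r → TI (diagonal (vecCons 1 (vecCons (-1) b))) (r + 1)

/-! ### Conics and the split lemma -/

/-- conics with one exceptional place -/
def T_CON : Prop := ∀ (K : Type) [Field K] [NumberField K] (a b : K) (w₀ : FPl K),
  a ≠ 0 → b ≠ 0 → (∀ w : Pl K, w ≠ Sum.inl w₀ → hs w a b = 1) → Sol a b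

/-- ternary forms with one exceptional place -/
def T_TR3 : Prop := ∀ (K : Type) [Field K] [NumberField K] (a : Fin 3 → K) (w₀ : FPl K),
  (∀ i, a i ≠ 0) → (∀ w : Pl K, w ≠ Sum.inl w₀ → AtPl w fun _ _ ι => Iso fun i => ι (a i)) →
  Iso a

/-- the completions have more than two square classes -/
def T_NSL : Prop := ∀ (K : Type) [Field K] [NumberField K] (v : FPl K) (n : ℕ)
  (a : Fin n → v.adicCompletion K), 5 ≤ n → (∀ i, a i ≠ 0) → Iso a

/-- split diagonal forms in an odd number of variables -/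
def T_ODS : Prop := ∀ (K : Type) [Field K] [NumberField K] (m : ℕ) (a : Fin (2 * m + 1) → K)
  (w₀ : FPl K), (∀ i, a i ≠ 0) →
  (∀ w : Pl K, w ≠ Sum.inl w₀ → AtPl w fun _ _ ι => TI (diagonal fun i => ι (a i)) m) →
  TI (diagonal a) m

/-- split forms in an odd number of variables -/
def T_SPG : Prop := ∀ (K : Type) [Field K] [NumberField K] (m : ℕ)
  (A : Matrix (Fin (2 * m + 1)) (Fin (2 * m + 1)) K) (w₀ : FPl K), A.IsSymm → A.det ≠ 0 →
  (∀ w : Pl K, w ≠ Sum.inl w₀ → AtPl w fun _ _ ι => TI (A.map ι) m) → TI A m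

end Pool.Agent.H5.QH
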